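import Pool.Agent.Q150.NetD
import Pool.Agent.Q150.NetE

/-! # A common net of two boxes with independent, non-crossing creases -/

namespace Pool.Agent.Results.MP_40ce5a_co.IndependentNonCrossing

open Pool.Agent.Q150.Net

/-- There is a polyomino (of 94 cells, a simple polygon) that folds onto the surface of the box
`1 × 11 × 3` and onto the surface of the different box `5 × 7 × 1` in such a way that the crease
sets of the two foldings are independent and do not cross. -/
theorem result :
    ∃ (P : Finset (ℤ × ℤ)) (d e : Fin 3 → ℤ) (f g : ℤ × ℤ → Fin 3 → ℤ),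
      IsPolyomino P ∧ P.card = 94 ∧
      (d = ![1, 11, 3] ∧ e = ![5, 7, 1]) ∧
      ((∀ i, 0 < d i) ∧ (∀ i, 0 < e i) ∧ Different d e) ∧
      IsFolding P d f ∧ IsFolding P e g ∧
      Independent P f g ∧ NonCrossing P f g :=
  ⟨net, boxA, boxB, foldA, foldB, isPolyomino_net, by decide +kernel, ⟨rfl, rfl⟩,
    ⟨posA, posB, different⟩, foldingA, foldingB, independent, nonCrossing⟩

end Pool.Agent.Results.MP_40ce5a_co.IndependentNonCrossing
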